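import Pool.Agent.H.MP_1308e3_lc.A

set_option autoImplicit false

namespace Pool.Agent.Results.MP_1308e3_lc.No

open Pool.Agent.H.MP_1308e3_lc Pool.Agent.H.MP_5ae901_lc Pool.Agent.Lib.helper26.Low

theorem result : ∃ (F : Type) (_ : Field F) (e : ℕ ≃ F),
    Computable₂ (fun a b : ℕ => e.symm (e a + e b)) ∧
    Computable₂ (fun a b : ℕ => e.symm (e a * e b)) ∧
    ∃ lt : F → F → Prop, IsOrd lt ∧ IsLow {n | lt (e n.unpair.1) (e n.unpair.2)} ∧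
      ¬ ∃ (D : Set ℕ) (g : ℕ → F) (A M : ℕ → ℕ →. ℕ) (R : ℕ × ℕ → Prop),
        ComputablePred (· ∈ D) ∧ Set.BijOn g D Set.univ ∧ Partrec₂ A ∧ Partrec₂ M ∧
        ComputablePred R ∧
        (∀ a ∈ D, ∀ b ∈ D, ∃ c ∈ A a b, c ∈ D ∧ g c = g a + g b) ∧
        (∀ a ∈ D, ∀ b ∈ D, ∃ c ∈ M a b, c ∈ D ∧ g c = g a * g b) ∧
        ∀ a ∈ D, ∀ b ∈ D, R (a, b) ↔ lt (g a) (g b) := by
  obtain ⟨v, x, h⟩ := exists_good
  obtain ⟨e, ha, hm, -, -⟩ := h.comp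
  obtain ⟨lt, h1, h2⟩ := low_ord e ha hm (· < ·)
    ⟨inferInstance, fun a b c k => add_lt_add_left k c, fun a b => mul_pos⟩
  refine ⟨h.F, inferInstance, e, ha, hm, lt, h1, h2, ?_⟩
  rintro ⟨D, g, A, M, R, -, k1, k2, k3, k4, k5, k6, k7⟩
  exact no_copy h lt h1 D g k1.surjOn A M k2 k3 k5 k6 R k4 k7

end Pool.Agent.Results.MP_1308e3_lc.No
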